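import Pool.Agent.Y6.M.Stm

set_option autoImplicit false

open Set Filter Topology
open scoped ComplexConjugate

namespace Pool.Agent.Y344.EM.LV

open Pool.Agent.Y6.M

lemma al_succ' (n : ℕ) : al (n + 1) = al n ^ (2 * n + 8) := rfl

lemma al_ge (n : ℕ) : 10 ≤ al n := by
  induction n with
  | zero =>
    change 10 ≤ 10 ^ 40
    exact Nat.le_self_pow (by norm_num) 10
  | succ n ih =>
    rw [al_succ']
    exact ih.trans (Nat.le_self_pow (by omega) _)

lemma al_lt (n : ℕ) : al n < al (n + 1) := by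
  rw [al_succ']
  have h := al_ge n
  calc al n = al n ^ 1 := (pow_one _).symm
    _ < al n ^ (2 * n + 8) := Nat.pow_lt_pow_right (by omega) (by omega)

lemma al_mono : StrictMono al := strictMono_nat_of_lt_succ al_lt

attribute [local irreducible] al

lemma nsq_neg (k : Z3) : nsq (-k) = nsq k := by
  simp [nsq]

lemma nsq_nonneg (k : Z3) : 0 ≤ nsq k := Finset.sum_nonneg fun _ _ => sq_nonneg _

lemma kx_apply (n : ℕ) (j : Fin 3) : kx n j = if j.1 = n % 3 then (al n : ℤ) else 0 := rfl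

lemma kx_nonneg (n : ℕ) (j : Fin 3) : 0 ≤ kx n j := by
  rw [kx_apply]
  split_ifs
  · exact Int.natCast_nonneg _
  · exact le_refl _

lemma kx_self (n : ℕ) : kx n ⟨n % 3, Nat.mod_lt _ (by norm_num)⟩ = (al n : ℤ) := if_pos rfl

lemma nsq_kx (n : ℕ) : nsq (kx n) = (al n : ℤ) ^ 2 := by
  unfold nsq
  rw [Finset.sum_eq_single (⟨n % 3, Nat.mod_lt _ (by norm_num)⟩ : Fin 3)]
  · rw [kx_self]
  · intro j _ hj
    rw [kx_apply, if_neg]
    · norm_num
    · intro h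
      exact hj (Fin.ext h)
  · intro h
    exact absurd (Finset.mem_univ _) h

lemma nsq_ky (n : ℕ) : nsq (kx n + kx (n + 1)) = (al n : ℤ) ^ 2 + (al (n + 1) : ℤ) ^ 2 := by
  rw [← nsq_kx n, ← nsq_kx (n + 1)]
  unfold nsq
  rw [← Finset.sum_add_distrib]
  apply Finset.sum_congr rfl
  intro j _
  have h : kx n j * kx (n + 1) j = 0 := by
    rw [kx_apply, kx_apply]
    by_cases h1 : j.1 = n % 3
    · rw [if_neg (show ¬ j.1 = (n + 1) % 3 by omega), mul_zero]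
    · rw [if_neg h1, zero_mul]
  rw [Pi.add_apply]
  linear_combination 2 * h

lemma br_br (i : Md) : br (br i) = i := by
  apply Prod.ext
  · apply Subtype.ext
    exact neg_neg _
  · rfl

lemma br_fst (i : Md) : (br i).1.1 = -i.1.1 := rfl

lemma br_snd (i : Md) : (br i).2 = i.2 := rfl

/-- the square of the length of the main modes -/
lemma ML_true {n : ℕ} {i : Md} (h : ML n i) (h2 : i.2 = true) :
    (i = Xm n ∨ i = br (Xm n)) ∧ nsq i.1.1 = (al n : ℤ) ^ 2 := by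
  rcases h with h | h | ⟨m, -, h | h⟩
  · exact ⟨Or.inl h, by rw [h]; exact nsq_kx n⟩
  · refine ⟨Or.inr h, ?_⟩
    rw [h, br_fst, nsq_neg]
    exact nsq_kx n
  · rw [h] at h2
    exact absurd h2 (by simp [Ym])
  · rw [h, br_snd] at h2
    exact absurd h2 (by simp [Ym])

lemma ML_false {n : ℕ} {i : Md} (h : ML n i) (h2 : i.2 = false) :
    ∃ m, n = m + 1 ∧ (i = Ym m ∨ i = br (Ym m)) ∧
      nsq i.1.1 = (al m : ℤ) ^ 2 + (al (m + 1) : ℤ) ^ 2 := by
  rcases h with h | h | ⟨m, hm, h | h⟩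
  · rw [h] at h2
    exact absurd h2 (by simp [Xm])
  · rw [h, br_snd] at h2
    exact absurd h2 (by simp [Xm])
  · refine ⟨m, hm, Or.inl h, ?_⟩
    rw [h]
    exact nsq_ky m
  · refine ⟨m, hm, Or.inr h, ?_⟩
    rw [h, br_fst, nsq_neg]
    exact nsq_ky m

lemma sq_inj {n m : ℕ} (h : (al n : ℤ) ^ 2 = (al m : ℤ) ^ 2) : n = m := by
  apply al_mono.injective
  have h1 : (al n) ^ 2 = (al m) ^ 2 := by exact_mod_cast h
  exact Nat.pow_left_injective (by norm_num : (2 : ℕ) ≠ 0) h1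

lemma sum_mono {n m : ℕ} (h : n < m) :
    (al n : ℤ) ^ 2 + (al (n + 1) : ℤ) ^ 2 < (al m : ℤ) ^ 2 + (al (m + 1) : ℤ) ^ 2 := by
  have h1 : (al n) ^ 2 < (al m) ^ 2 := Nat.pow_lt_pow_left (al_mono h) (by norm_num)
  have h2 : (al (n + 1)) ^ 2 < (al (m + 1)) ^ 2 :=
    Nat.pow_lt_pow_left (al_mono (by omega)) (by norm_num)
  have h3 : (al n) ^ 2 + (al (n + 1)) ^ 2 < (al m) ^ 2 + (al (m + 1)) ^ 2 := by omega
  exact_mod_cast h3

lemma sum_inj {n m : ℕ}
    (h : (al n : ℤ) ^ 2 + (al (n + 1) : ℤ) ^ 2 = (al m : ℤ) ^ 2 + (al (m + 1) : ℤ) ^ 2) :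
    n = m := by
  rcases lt_trichotomy n m with h1 | h1 | h1
  · exact absurd h (sum_mono h1).ne
  · exact h1
  · exact absurd h (sum_mono h1).ne'

lemma ML_unique {n n' : ℕ} {i : Md} (h : ML n i) (h' : ML n' i) : n = n' := by
  rcases hb : i.2 with _ | _
  · obtain ⟨m, hm, -, h1⟩ := ML_false h hb
    obtain ⟨m', hm', -, h2⟩ := ML_false h' hb
    rw [h1] at h2
    have := sum_inj h2
    omega
  · have h1 := (ML_true h hb).2
    have h2 := (ML_true h' hb).2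
    rw [h1] at h2
    exact sq_inj h2

lemma lvM_of {n : ℕ} {i : Md} (h : ML n i) : lvM i = n := by
  classical
  have hex : ∃ n, ML n i := ⟨n, h⟩
  unfold lvM
  rw [dif_pos hex]
  exact ML_unique (Nat.find_spec hex) h

lemma lvM_neg {i : Md} (h : ¬ ∃ n, ML n i) : lvM i = (nsq i.1.1).toNat := by
  unfold lvM
  rw [dif_neg h]

lemma σM_of {i : Md} (h : ∃ n, ML n i) : σM i = 0 := by
  unfold σM
  rw [if_pos h]

lemma σM_neg {i : Md} (h : ¬ ∃ n, ML n i) : σM i = (sgz i.1.1 : ℝ) := by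
  unfold σM
  rw [if_neg h]

lemma ML_X (n : ℕ) : ML n (Xm n) := Or.inl rfl

lemma ML_bX (n : ℕ) : ML n (br (Xm n)) := Or.inr (Or.inl rfl)

lemma ML_Y (n : ℕ) : ML (n + 1) (Ym n) := Or.inr (Or.inr ⟨n, rfl, Or.inl rfl⟩)

lemma ML_bY (n : ℕ) : ML (n + 1) (br (Ym n)) := Or.inr (Or.inr ⟨n, rfl, Or.inr rfl⟩)

lemma ML_br {n : ℕ} {i : Md} (h : ML n i) : ML n (br i) := by
  rcases h with h | h | ⟨m, hm, h | h⟩
  · exact Or.inr (Or.inl (by rw [h]))
  · exact Or.inl (by rw [h, br_br])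
  · exact Or.inr (Or.inr ⟨m, hm, Or.inr (by rw [h])⟩)
  · exact Or.inr (Or.inr ⟨m, hm, Or.inl (by rw [h, br_br])⟩)

lemma ML_br_iff {i : Md} : (∃ n, ML n (br i)) ↔ ∃ n, ML n i := by
  constructor
  · rintro ⟨n, h⟩
    have := ML_br h
    rw [br_br] at this
    exact ⟨n, this⟩
  · rintro ⟨n, h⟩
    exact ⟨n, ML_br h⟩

lemma sgz_neg (k : Z3) : sgz (-k) = -sgz k := by
  unfold sgz
  simp only [Pi.neg_apply, neg_eq_zero, ne_eq, Int.sign_neg]
  split_ifs <;> rfl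

lemma sign_sq {a : ℤ} (h : a ≠ 0) : a.sign ^ 2 = 1 := by
  rcases lt_trichotomy a 0 with h1 | h1 | h1
  · rw [Int.sign_eq_neg_one_of_neg h1]
    norm_num
  · exact absurd h1 h
  · rw [Int.sign_eq_one_of_pos h1]
    norm_num

lemma sgz_sq {k : Z3} (h : k ≠ 0) : sgz k ^ 2 = 1 := by
  unfold sgz
  by_cases h0 : k 0 ≠ 0
  · rw [if_pos h0]
    exact sign_sq h0
  · by_cases h1 : k 1 ≠ 0
    · rw [if_neg h0, if_pos h1]
      exact sign_sq h1
    · rw [if_neg h0, if_neg h1]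
      apply sign_sq
      intro h2
      apply h
      funext j
      fin_cases j
      · exact not_not.1 h0
      · exact not_not.1 h1
      · exact h2

lemma σM_sq {i : Md} (h : ¬ ∃ n, ML n i) : σM i ^ 2 = 1 := by
  rw [σM_neg h]
  have := sgz_sq i.1.2
  exact_mod_cast this

lemma main_of_zero {i : Md} (h : σM i = 0) : ∃ n, ML n i := by
  by_contra hc
  have := σM_sq hc
  rw [h] at this
  norm_num at this

lemma fin_nsq (m : ℕ) : {i : Md | nsq i.1.1 ≤ (m : ℤ)}.Finite := by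
  have hfin : (Set.Icc (fun _ => -(m : ℤ) : Z3) (fun _ => (m : ℤ)) ×ˢ (Set.univ : Set Bool)).Finite :=
    (Set.finite_Icc _ _).prod Set.finite_univ
  refine Set.Finite.of_finite_image (f := fun i : Md => ((i.1.1, i.2) : Z3 × Bool))
    (hfin.subset ?_) ?_
  · rintro _ ⟨i, hi, rfl⟩
    have hi' : nsq i.1.1 ≤ (m : ℤ) := hi
    have hj : ∀ j, -(m : ℤ) ≤ i.1.1 j ∧ i.1.1 j ≤ (m : ℤ) := by
      intro j
      have h1 : i.1.1 j ^ 2 ≤ nsq i.1.1 :=
        Finset.single_le_sum (f := fun j => i.1.1 j ^ 2) (fun _ _ => sq_nonneg _)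
          (Finset.mem_univ j)
      have h2 : i.1.1 j ^ 2 ≤ (m : ℤ) := h1.trans hi'
      constructor <;> nlinarith [sq_nonneg (i.1.1 j), sq_nonneg (i.1.1 j - 1),
        sq_nonneg (i.1.1 j + 1), Int.natCast_nonneg m]
    exact ⟨⟨fun j => (hj j).1, fun j => (hj j).2⟩, Set.mem_univ _⟩
  · rintro i _ j _ hij
    have h0 : ((i.1.1, i.2) : Z3 × Bool) = (j.1.1, j.2) := hij
    have h1 : i.1.1 = j.1.1 := (Prod.mk.inj h0).1
    have h2 : i.2 = j.2 := (Prod.mk.inj h0).2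
    exact Prod.ext (Subtype.ext h1) h2

lemma fin_ML (n : ℕ) : {i : Md | ML n i}.Finite := by
  refine ((Set.finite_singleton (Xm n)).union ((Set.finite_singleton (br (Xm n))).union
    ((Set.finite_singleton (Ym (n - 1))).union (Set.finite_singleton (br (Ym (n - 1))))))).subset ?_
  rintro i (h | h | ⟨m, hm, h | h⟩)
  · exact Or.inl h
  · exact Or.inr (Or.inl h)
  · have : n - 1 = m := by omega
    exact Or.inr (Or.inr (Or.inl (by rw [this]; exact h)))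
  · have : n - 1 = m := by omega
    exact Or.inr (Or.inr (Or.inr (by rw [this]; exact h)))

lemma fin_lv (m : ℕ) : {i : Md | lvM i ≤ m}.Finite := by
  refine ((Set.Finite.biUnion (Set.finite_Iic m) (fun n _ => fin_ML n)).union
    (fin_nsq m)).subset ?_
  intro i hi
  have hi' : lvM i ≤ m := hi
  by_cases h : ∃ n, ML n i
  · obtain ⟨n, hn⟩ := h
    left
    rw [lvM_of hn] at hi'
    exact Set.mem_biUnion (show n ∈ Set.Iic m from hi') hn
  · right
    rw [lvM_neg h] at hi'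
    show nsq i.1.1 ≤ (m : ℤ)
    have := nsq_nonneg i.1.1
    omega

lemma kx_ne_neg (n m : ℕ) : kx n ≠ -kx m := by
  intro h
  have h1 := congrFun h ⟨n % 3, Nat.mod_lt _ (by norm_num)⟩
  rw [kx_self, Pi.neg_apply] at h1
  have h2 := kx_nonneg m ⟨n % 3, Nat.mod_lt _ (by norm_num)⟩
  have h3 := al_pos n
  omega

lemma ky_ne_neg (n m : ℕ) : kx n + kx (n + 1) ≠ -(kx m + kx (m + 1)) := by
  intro h
  have h1 := congrFun h ⟨n % 3, Nat.mod_lt _ (by norm_num)⟩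
  rw [Pi.add_apply, kx_self, Pi.neg_apply, Pi.add_apply] at h1
  have h2 := kx_nonneg m ⟨n % 3, Nat.mod_lt _ (by norm_num)⟩
  have h4 := kx_nonneg (m + 1) ⟨n % 3, Nat.mod_lt _ (by norm_num)⟩
  have h5 := kx_nonneg (n + 1) ⟨n % 3, Nat.mod_lt _ (by norm_num)⟩
  have h3 := al_pos n
  omega

lemma sizes {i : Md} (h : σM i = 0) :
    αM (lvM i) ^ 2 ≤ NM i ∧ NM i ≤ 2 * αM (lvM i) ^ 2 := by
  obtain ⟨n, hn⟩ := main_of_zero h
  rw [lvM_of hn]
  unfold αM NM
  rcases hb : i.2 with _ | _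
  · obtain ⟨m, hm, -, h1⟩ := ML_false hn hb
    subst hm
    rw [h1]
    have h2 : ((al m : ℕ) : ℝ) ≤ ((al (m + 1) : ℕ) : ℝ) := by exact_mod_cast (al_lt m).le
    have h3 : (0 : ℝ) ≤ ((al m : ℕ) : ℝ) := Nat.cast_nonneg _
    push_cast
    constructor <;> nlinarith
  · have h1 := (ML_true hn hb).2
    rw [h1]
    push_cast
    have h3 : (0 : ℝ) ≤ ((al n : ℕ) : ℝ) ^ 2 := sq_nonneg _
    constructor <;> linarith

theorem t_LV : Pool.Agent.Y6.M.S_LV := by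
  refine ⟨fun n => ⟨lvM_of (ML_X n), lvM_of (ML_bX n), lvM_of (ML_Y n), lvM_of (ML_bY n)⟩,
    fun n => ⟨σM_of ⟨_, ML_X n⟩, σM_of ⟨_, ML_bX n⟩, σM_of ⟨_, ML_Y n⟩, σM_of ⟨_, ML_bY n⟩⟩,
    ?_, ?_, ?_, fin_lv, fun i hi => sizes hi, ?_, ?_, kx_ne_neg, ky_ne_neg⟩
  · intro i hi
    obtain ⟨n, hn⟩ := main_of_zero hi
    rcases hn with h | h | ⟨m, -, h | h⟩
    · exact ⟨n, Or.inl h⟩
    · exact ⟨n, Or.inr (Or.inl h)⟩
    · exact ⟨m, Or.inr (Or.inr (Or.inl h))⟩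
    · exact ⟨m, Or.inr (Or.inr (Or.inr h))⟩
  · intro i hi
    have hn : ¬ ∃ n, ML n i := fun h => hi (σM_of h)
    refine ⟨?_, σM_sq hn⟩
    rw [lvM_neg hn]
    exact Int.toNat_of_nonneg (nsq_nonneg _)
  · intro i
    refine ⟨br_br i, ?_, ?_⟩
    · by_cases h : ∃ n, ML n i
      · obtain ⟨n, hn⟩ := h
        rw [lvM_of hn, lvM_of (ML_br hn)]
      · rw [lvM_neg h, lvM_neg (fun h' => h (ML_br_iff.1 h')), br_fst, nsq_neg]
    · by_cases h : ∃ n, ML n i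
      · rw [σM_of h, σM_of (ML_br_iff.2 h), neg_zero]
      · rw [σM_neg h, σM_neg (fun h' => h (ML_br_iff.1 h')), br_fst, sgz_neg]
        push_cast
        rfl
  · intro n m h
    have h1 : nsq (Xm n).1.1 = nsq (Xm m).1.1 := by rw [h]
    have h2 : nsq (kx n) = nsq (kx m) := h1
    rw [nsq_kx, nsq_kx] at h2
    exact sq_inj h2
  · intro n m h
    have h1 : nsq (Ym n).1.1 = nsq (Ym m).1.1 := by rw [h]
    have h2 : nsq (kx n + kx (n + 1)) = nsq (kx m + kx (m + 1)) := h1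
    rw [nsq_ky, nsq_ky] at h2
    exact sum_inj h2

end Pool.Agent.Y344.EM.LV
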